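import Pool.Agent.U188.PP.Crd
import Pool.Agent.TH115.GD.Gal

/-!
# Points which lift to a trivial covering are divisible; integers of the completions
-/

set_option autoImplicit false
set_option linter.all false

open WeierstrassCurve WeierstrassCurve.Affine IsDedekindDomain NumberField

namespace Pool.Agent.U188.PP

open Pool.Agent.TH115.GD

open scoped Classical

section

variable {K : Type} [Field K] {L : Type} [Field L] [Algebra K L]

/-- the restriction of an automorphism (after `TH115.GD.exists_restrict`) -/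
lemma exists_restr (ι : Sep K →ₐ[K] Sep L) (τ : Sep L ≃ₐ[L] Sep L) :
    ∃ σ : Sep K ≃ₐ[K] Sep K, ∀ x, τ (ι x) = ι (σ x) := by
  letI : Algebra (Sep K) (Sep L) := ι.toRingHom.toAlgebra
  haveI : IsScalarTower K (Sep K) (Sep L) :=
    IsScalarTower.of_algebraMap_eq fun x => (ι.commutes x).symm
  refine ⟨(τ.restrictScalars K).restrictNormal (Sep K), fun x => ?_⟩
  exact ((τ.restrictScalars K).restrictNormal_commutes (Sep K) x).symm

/-- **A point which lifts to a trivial covering is divisible.** -/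
theorem lift_div (E : WeierstrassCurve K) {N : ℕ} (ι : Sep K →ₐ[K] Sep L) (Q : Pt E (Sep L))
    (P : Pt E L) (hQ : N • Q = act E (incl K L (Sep L)) P)
    (f : (Sep K ≃ₐ[K] Sep K) → Pt E (Sep K))
    (hf : ∀ (τ : Sep L ≃ₐ[L] Sep L) (σ : Sep K ≃ₐ[K] Sep K), (∀ x, τ (ι x) = ι (σ x)) →
      act E ι (f σ) = act E (rs K τ) Q - Q)
    (R : Pt E (Sep K)) (hR : N • R = 0) (hfR : ∀ σ, f σ = act E (rs K σ) R - R) :
    ∃ P' : Pt E L, N • P' = P := by
  have h1 : ∀ τ : Sep L ≃ₐ[L] Sep L, act E (rs K τ) (Q - act E ι R) = Q - act E ι R := by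
    intro τ
    obtain ⟨σ, hσ⟩ := exists_restr ι τ
    have e1 : (rs K τ).comp ι = ι.comp (rs K σ) := AlgHom.ext fun x => hσ x
    have e2 := hf τ σ hσ
    rw [hfR σ, map_sub, act_act, ← e1] at e2
    rw [map_sub, act_act]
    have e3 : act E (rs K τ) Q = act E ((rs K τ).comp ι) R - act E ι R + Q := by
      rw [e2]
      abel
    rw [e3]
    abel
  obtain ⟨P', hP'⟩ := fixed_point (K := K) (F := L) (Ω := Sep L) E _ h1
  refine ⟨P', act_inj E (incl K L (Sep L)) ?_⟩
  rw [map_nsmul, hP', nsmul_sub, hQ, ← map_nsmul, hR, map_zero, sub_zero]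

end

section

open WithZero

/-- integers are integral -/
lemma v_int {F Γ : Type} [Field F] [LinearOrderedCommGroupWithZero Γ] {v : Valuation F Γ} (m : ℤ) :
    v (m : F) ≤ 1 := by
  rcases Int.eq_nat_or_neg m with ⟨k, rfl | rfl⟩
  · rw [Int.cast_natCast]
    exact v_nat k
  · rw [Int.cast_neg, Int.cast_natCast, Valuation.map_neg]
    exact v_nat k

lemma cong_of {F Γ : Type} [Field F] [LinearOrderedCommGroupWithZero Γ] {v : Valuation F Γ}
    {a b : ℤ} (ha : Odd a) (hb : (4 : ℤ) ∣ a - b) : Cong v (a : F) (b : F) := by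
  obtain ⟨k, hk⟩ := ha
  obtain ⟨l, hl⟩ := hb
  refine ⟨⟨(k : F), v_int k, ?_⟩, (l : F), v_int l, ?_⟩
  · rw [hk]
    push_cast
    ring
  · have : ((a - b : ℤ) : F) = ((4 * l : ℤ) : F) := by rw [hl]
    push_cast at this
    exact this

/-- A valuation with values in `ℤ` for which `2` is a uniformizer. -/
lemma un_of {F : Type} [Field F] {v : Valuation F ℤᵐ⁰} (h : v 2 = exp (-1 : ℤ)) : Un v := by
  refine ⟨?_, ?_, fun x hx => ?_⟩
  · intro h0
    rw [h0, map_zero] at h
    exact exp_ne_zero h.symm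
  · rw [h, ← exp_zero, exp_lt_exp]
    norm_num
  · rw [h]
    by_cases h0 : v x = 0
    · rw [h0]
      exact zero_le'
    · rw [← exp_log h0] at hx ⊢
      rw [← exp_zero, exp_lt_exp] at hx
      rw [exp_le_exp]
      omega

/-- A value which is at most all powers of a small value is zero. -/
lemma zero_of_le {v C g : ℤᵐ⁰} (hg : g = exp (-1 : ℤ)) (h : ∀ k : ℕ, v ≤ C * g ^ k) : v = 0 := by
  by_contra h0
  have hC : C ≠ 0 := by
    rintro rfl
    have := h 0
    rw [zero_mul] at this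
    exact h0 (le_antisymm this zero_le')
  obtain ⟨a, ha⟩ : ∃ a : ℤ, v = exp a := ⟨log v, (exp_log h0).symm⟩
  obtain ⟨c, hc⟩ : ∃ c : ℤ, C = exp c := ⟨log C, (exp_log hC).symm⟩
  have h1 := h (c - a + 1).toNat
  rw [ha, hc, hg, ← exp_nsmul, ← exp_add, exp_le_exp] at h1
  simp only [smul_neg, nsmul_eq_mul, mul_one] at h1
  omega

end

end Pool.Agent.U188.PP
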