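import Pool.Agent.U188.PP.Dbl

/-!
# Multihomogeneous equations at points close to the point at infinity
-/

set_option autoImplicit false
set_option linter.all false

open WeierstrassCurve WeierstrassCurve.Affine MvPolynomial

namespace Pool.Agent.U188.PP

open scoped Classical

/-- Homogeneous coordinates of a point. -/
def coords {F : Type} [Field F] {W : WeierstrassCurve F} : W.toAffine.Point → Fin 3 → F
  | .zero => ![0, 1, 0]
  | .some x y _ => ![x, y, 1]

/-- `f` is homogeneous of degree `d i` in the coordinates of the `i`-th point, for all `i`. -/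
def MultiHom {F : Type} [Field F] {n : ℕ} (d : Fin n → ℕ) (f : MvPolynomial (Fin n × Fin 3) F) :
    Prop := ∀ m ∈ f.support, ∀ i, ∑ j, m (i, j) = d i

section

variable {F Γ : Type} [Field F] [LinearOrderedCommGroupWithZero Γ] {v : Valuation F Γ}

/-- coordinates of points close to the point at infinity -/
lemma far_coords (hU : Un v) {W : WeierstrassCurve F} {A B : F} (hW : W = ⟨0, 0, 0, A, B⟩)
    (hc : Cong v A B) {k : ℕ} (hk : 1 ≤ k) {P : W.toAffine.Point} (hP : Far v k P) :
    ∃ c s t : F, c ≠ 0 ∧ v s ≤ v 2 ^ k ∧ v t ≤ v 2 ^ k ∧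
      ∀ j, coords P j = c * (![s, 1, t] : Fin 3 → F) j := by
  have hg := hU.pos
  rcases hP with rfl | ⟨x, y, h, rfl, h0⟩
  · refine ⟨1, 0, 0, one_ne_zero, by simp, by simp, fun j => ?_⟩
    rw [one_mul]
    rfl
  · obtain ⟨he, -⟩ := dbl hW hU.ne h
    obtain ⟨hA, hB⟩ := hc.int hU
    have hx' := Far.big (W := W) hU hk h0
    have hx0 : 0 < v x := zero_lt_one.trans hx'
    have hy2 := y_big hU hA hB hx' he
    have hy : y ≠ 0 := by
      rintro rfl
      rw [map_zero, zero_pow (by norm_num)] at hy2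
      exact pow_ne_zero 3 hx0.ne' hy2.symm
    have hvy : v y ≠ 0 := (Valuation.ne_zero_iff v).2 hy
    have h1 : (v x)⁻¹ ≤ v 2 ^ (2 * k) := by
      rw [inv_le_iff_one_le_mul₀ hx0, mul_comm]
      exact h0
    have h2 : (v x)⁻¹ ≤ 1 := inv_le_one_of_one_le₀ hx'.le
    refine ⟨y, x / y, 1 / y, hy, ?_, ?_, fun j => ?_⟩
    · have h3 : v (x / y) ^ 2 ≤ (v 2 ^ k) ^ 2 := by
        rw [map_div₀, div_pow, hy2, ← pow_mul, mul_comm k 2]
        have : v x ^ 2 / v x ^ 3 = (v x)⁻¹ := by
          field_simp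
        rw [this]
        exact h1
      exact (pow_le_pow_iff_left₀ zero_le' zero_le' (by norm_num)).1 h3
    · have h3 : v (1 / y) ^ 2 ≤ (v 2 ^ k) ^ 2 := by
        rw [map_div₀, div_pow, hy2, ← pow_mul, mul_comm k 2, map_one, one_pow]
        have : 1 / v x ^ 3 = (v x)⁻¹ * ((v x)⁻¹) ^ 2 := by
          field_simp
        rw [this]
        exact (mul_le_of_le_one_right' (pow_le_one' h2 2)).trans h1
      exact (pow_le_pow_iff_left₀ zero_le' zero_le' (by norm_num)).1 h3
    · fin_cases j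
      · show x = y * (x / y)
        field_simp
      · show y = y * 1
        rw [mul_one]
      · show (1 : F) = y * (1 / y)
        field_simp

lemma mul_close {a b c d : F} {δ : Γ} (hb : v b ≤ 1) (hc : v c ≤ 1) (h1 : v (a - b) ≤ δ)
    (h2 : v (c - d) ≤ δ) : v (a * c - b * d) ≤ δ := by
  have e : a * c - b * d = (a - b) * c + b * (c - d) := by ring
  rw [e]
  refine v_add_le ?_ ?_
  · rw [map_mul]
    exact (mul_le_of_le_one_right' hc).trans h1
  · rw [map_mul]
    exact (mul_le_of_le_one_left' hb).trans h2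

lemma prod_le {ι : Type} (s : Finset ι) {a : ι → F} (ha : ∀ i ∈ s, v (a i) ≤ 1) :
    v (∏ i ∈ s, a i) ≤ 1 := by
  rw [map_prod]
  exact Finset.prod_le_one' ha

lemma prod_close {ι : Type} (s : Finset ι) {a b : ι → F} {δ : Γ} (ha : ∀ i ∈ s, v (a i) ≤ 1)
    (hb : ∀ i ∈ s, v (b i) ≤ 1) (h : ∀ i ∈ s, v (a i - b i) ≤ δ) :
    v (∏ i ∈ s, a i - ∏ i ∈ s, b i) ≤ δ := by
  induction s using Finset.induction_on with
  | empty => simp
  | insert i s hi ih =>
    rw [Finset.prod_insert hi, Finset.prod_insert hi]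
    exact mul_close (hb i (Finset.mem_insert_self _ _))
      (prod_le s fun j hj => ha j (Finset.mem_insert_of_mem hj)) (h i (Finset.mem_insert_self _ _))
      (ih (fun j hj => ha j (Finset.mem_insert_of_mem hj))
        (fun j hj => hb j (Finset.mem_insert_of_mem hj))
        fun j hj => h j (Finset.mem_insert_of_mem hj))

lemma pow_close {a b : F} {δ : Γ} (ha : v a ≤ 1) (hb : v b ≤ 1) (h : v (a - b) ≤ δ) (m : ℕ) :
    v (a ^ m - b ^ m) ≤ δ := by
  have := prod_close (v := v) (Finset.range m) (a := fun _ => a) (b := fun _ => b) (δ := δ)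
    (fun _ _ => ha) (fun _ _ => hb) fun _ _ => h
  simpa using this

/-- polynomials at close points -/
theorem eval_close {σ : Type} [Fintype σ] (f : MvPolynomial σ F) {C δ : Γ}
    (hf : ∀ m, v (coeff m f) ≤ C) {a b : σ → F} (ha : ∀ i, v (a i) ≤ 1) (hb : ∀ i, v (b i) ≤ 1)
    (h : ∀ i, v (a i - b i) ≤ δ) : v (eval a f - eval b f) ≤ C * δ := by
  rw [eval_eq', eval_eq', ← Finset.sum_sub_distrib]
  refine Valuation.map_sum_le v fun m _ => ?_
  rw [← mul_sub, map_mul]
  exact mul_le_mul' (hf m) (prod_close _ (fun i _ => v_pow_le (ha i) _) (fun i _ => v_pow_le (hb i) _)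
    fun i _ => pow_close (ha i) (hb i) (h i) _)

lemma eval_scale {n : ℕ} {d : Fin n → ℕ} {f : MvPolynomial (Fin n × Fin 3) F} (hf : MultiHom d f)
    (c : Fin n → F) (a : Fin n × Fin 3 → F) :
    eval (fun q => c q.1 * a q) f = (∏ i, c i ^ d i) * eval a f := by
  rw [eval_eq', eval_eq', Finset.mul_sum]
  refine Finset.sum_congr rfl fun m hm => ?_
  have h1 : ∏ q : Fin n × Fin 3, (c q.1 * a q) ^ m q = (∏ i, c i ^ d i) * ∏ q, a q ^ m q := by
    simp_rw [mul_pow]
    rw [Finset.prod_mul_distrib]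
    congr 1
    rw [Fintype.prod_prod_type]
    refine Finset.prod_congr rfl fun i _ => ?_
    show ∏ y, c i ^ m (i, y) = c i ^ d i
    rw [Finset.prod_pow_eq_pow_sum, hf m hm i]
  rw [h1]
  ring

/-- **The value at the point at infinity of an equation with a zero close to it.** -/
theorem close (hU : Un v) {n : ℕ} (W : Fin n → WeierstrassCurve F) (A B : Fin n → F)
    (hW : ∀ i, W i = ⟨0, 0, 0, A i, B i⟩) (hc : ∀ i, Cong v (A i) (B i)) {k : ℕ} (hk : 1 ≤ k)
    {P : (i : Fin n) → (W i).toAffine.Point} (hP : ∀ i, Far v k (P i)) {d : Fin n → ℕ}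
    {f : MvPolynomial (Fin n × Fin 3) F} (hd : MultiHom d f) {C : Γ}
    (hf : ∀ m, v (coeff m f) ≤ C) (h0 : eval (fun q => coords (P q.1) q.2) f = 0) :
    v (eval (fun q => (![0, 1, 0] : Fin 3 → F) q.2) f) ≤ C * v 2 ^ k := by
  choose c s t hc0 hs ht hcrd using fun i => far_coords hU (hW i) (hc i) hk (hP i)
  have hg1 : v 2 ^ k ≤ 1 := pow_le_one' hU.lt.le k
  have e1 : (fun q : Fin n × Fin 3 => coords (P q.1) q.2) =
      fun q => c q.1 * (![s q.1, 1, t q.1] : Fin 3 → F) q.2 := by
    funext q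
    exact hcrd q.1 q.2
  rw [e1, eval_scale hd c (fun q => (![s q.1, 1, t q.1] : Fin 3 → F) q.2)] at h0
  have h1 : eval (fun q : Fin n × Fin 3 => (![s q.1, 1, t q.1] : Fin 3 → F) q.2) f = 0 := by
    rcases mul_eq_zero.1 h0 with h2 | h2
    · exact absurd h2 (Finset.prod_ne_zero_iff.2 fun i _ => pow_ne_zero _ (hc0 i))
    · exact h2
  have h3 := eval_close f hf (δ := v 2 ^ k)
    (a := fun q : Fin n × Fin 3 => (![0, 1, 0] : Fin 3 → F) q.2)
    (b := fun q : Fin n × Fin 3 => (![s q.1, 1, t q.1] : Fin 3 → F) q.2) (by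
      rintro ⟨i, j⟩
      fin_cases j <;> simp) (by
      rintro ⟨i, j⟩
      fin_cases j
      · exact (hs i).trans hg1
      · simp
      · exact (ht i).trans hg1) (by
      rintro ⟨i, j⟩
      fin_cases j
      · show v (0 - s i) ≤ _
        rw [zero_sub, Valuation.map_neg]
        exact hs i
      · show v (1 - 1) ≤ _
        rw [sub_self, map_zero]
        exact zero_le'
      · show v (0 - t i) ≤ _
        rw [zero_sub, Valuation.map_neg]
        exact ht i)
  rw [h1, sub_zero] at h3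
  exact h3

end

end Pool.Agent.U188.PP
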