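import Pool.Agent.U188.PP.Loc

/-!
# Multiplication by powers of two
-/

set_option autoImplicit false
set_option linter.all false

open WeierstrassCurve WeierstrassCurve.Affine

namespace Pool.Agent.U188.PP

open scoped Classical

section

variable {F Γ : Type} [Field F] [LinearOrderedCommGroupWithZero Γ] {v : Valuation F Γ}

/-- doubling -/
lemma dbl {W : WeierstrassCurve F} {A B : F} (hW : W = ⟨0, 0, 0, A, B⟩) (h2 : (2 : F) ≠ 0) {x y : F}
    (h : W.toAffine.Nonsingular x y) :
    y ^ 2 = x ^ 3 + A * x + B ∧ (((Point.some x y h : W.toAffine.Point) + Point.some x y h = 0) ∨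
      (y ≠ 0 ∧ ∃ (Y : F) (h' : W.toAffine.Nonsingular
        ((x ^ 4 - 2 * A * x ^ 2 - 8 * B * x + A ^ 2) / (4 * y ^ 2)) Y),
        (Point.some x y h : W.toAffine.Point) + Point.some x y h = Point.some _ Y h')) := by
  subst hW
  have he : y ^ 2 = x ^ 3 + A * x + B := by
    have := (equation_iff (W := (⟨0, 0, 0, A, B⟩ : WeierstrassCurve F).toAffine) x y).1 h.1
    simpa using this
  refine ⟨he, ?_⟩
  have hn : ∀ t : F, (⟨0, 0, 0, A, B⟩ : WeierstrassCurve F).toAffine.negY x t = -t := by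
    intro t
    simp [negY]
  by_cases hy : y = 0
  · left
    exact Point.add_self_of_Y_eq (by rw [hn, hy, neg_zero])
  · right
    refine ⟨hy, ?_⟩
    have hne : y ≠ (⟨0, 0, 0, A, B⟩ : WeierstrassCurve F).toAffine.negY x y := by
      rw [hn]
      intro h3
      have h4 : 2 * y = 0 := by linear_combination h3
      rcases mul_eq_zero.1 h4 with h5 | h5
      · exact h2 h5
      · exact hy h5
    have hX : (⟨0, 0, 0, A, B⟩ : WeierstrassCurve F).toAffine.addX x x
        ((⟨0, 0, 0, A, B⟩ : WeierstrassCurve F).toAffine.slope x x y y) =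
        (x ^ 4 - 2 * A * x ^ 2 - 8 * B * x + A ^ 2) / (4 * y ^ 2) := by
      rw [slope_of_Y_ne rfl hne, hn]
      simp only [addX]
      have h3 : y - -y = 2 * y := by ring
      have h40 : (4 : F) ≠ 0 := by
        have : (4 : F) = 2 * 2 := by norm_num
        rw [this]
        exact mul_ne_zero h2 h2
      rw [h3]
      field_simp
      linear_combination (-32 * x) * he
    have h6 := Point.add_self_of_Y_ne (W := (⟨0, 0, 0, A, B⟩ : WeierstrassCurve F).toAffine)
      (h₁ := h) hne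
    rw [h6]
    have key : ∀ (X Y X' : F) (h7 : (⟨0, 0, 0, A, B⟩ : WeierstrassCurve F).toAffine.Nonsingular X Y),
        X = X' → ∃ (Y' : F) (h' : (⟨0, 0, 0, A, B⟩ : WeierstrassCurve F).toAffine.Nonsingular X' Y'),
          Point.some X Y h7 = Point.some X' Y' h' := by
      rintro X Y X' h7 rfl
      exact ⟨Y, h7, rfl⟩
    exact key _ _ _ _ hX

/-- The point `P` is infinite or its first coordinate is large. -/
def Far (v : Valuation F Γ) {W : WeierstrassCurve F} (k : ℕ) (P : W.toAffine.Point) : Prop :=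
  P = 0 ∨ ∃ x y h, P = Point.some x y h ∧ 1 ≤ v x * v 2 ^ (2 * k)

/-- The condition on the coefficients. -/
structure Cong (v : Valuation F Γ) (A B : F) : Prop where
  one : ∃ a : F, v a ≤ 1 ∧ A = 1 + 2 * a
  sub : ∃ b : F, v b ≤ 1 ∧ A - B = 4 * b

lemma Cong.form {A B : F} (h : Cong v A B) : ∃ a b : F, v a ≤ 1 ∧ v b ≤ 1 ∧ A = 1 + 2 * a ∧
    B = 1 + 2 * a - 4 * b := by
  obtain ⟨⟨a, ha, h1⟩, b, hb, h2⟩ := h
  exact ⟨a, b, ha, hb, h1, by rw [← h1]; linear_combination h2.symm⟩

lemma Cong.int {A B : F} (hU : Un v) (h : Cong v A B) : v A ≤ 1 ∧ v B ≤ 1 := by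
  obtain ⟨a, b, ha, hb, h1, h2⟩ := h.form
  have ho : v (1 : F) ≤ 1 := le_of_eq (map_one v)
  have h3 : v (1 + 2 * a) ≤ 1 := v_add_le ho (v_mul_le hU.lt.le ha)
  rw [h1, h2]
  exact ⟨h3, v_sub_le h3 (v_mul_le (v_ofNat 4) hb)⟩

lemma pow_cancel {g : Γ} (h0 : 0 < g) {a b : Γ} (h : a * g = b) : a = b * g⁻¹ := by
  rw [← h, mul_inv_cancel_right₀ h0.ne']

/-- the double of a point lies in the kernel of reduction -/
lemma far_one (hU : Un v) {W : WeierstrassCurve F} {A B : F} (hW : W = ⟨0, 0, 0, A, B⟩)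
    (hc : Cong v A B) (P : W.toAffine.Point) : Far v 1 (P + P) := by
  rcases P with _ | ⟨x, y, h⟩
  · left
    exact add_zero (0 : W.toAffine.Point)
  · obtain ⟨he, h1 | ⟨hy, Y, h', h1⟩⟩ := dbl hW hU.ne h
    · exact Or.inl h1
    · refine Or.inr ⟨_, Y, h', h1, ?_⟩
      obtain ⟨hA, hB⟩ := hc.int hU
      have hg := hU.pos
      have hy0 : 0 < v y := zero_lt_iff.2 ((Valuation.ne_zero_iff v).2 hy)
      have e4 : v (4 : F) = v 2 ^ 2 := by
        rw [← map_pow]
        norm_num
      rw [map_div₀, map_mul, map_pow, e4]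
      by_cases hx : v x ≤ 1
      · obtain ⟨a, b, ha, hb, h3, h4⟩ := hc.form
        subst h3
        subst h4
        rw [num_unit hU ha hb hx he]
        have h5 : v y ^ 2 ≤ 1 := by
          rw [← map_pow, he]
          exact v_add_le (v_add_le (v_pow_le hx 3) (v_mul_le hA hx)) hB
        rw [mul_one, div_mul_eq_mul_div, one_mul, one_le_div₀ (zero_lt_iff.2 (mul_ne_zero
          (pow_ne_zero _ hg.ne') (pow_ne_zero _ hy0.ne')))]
        exact mul_le_of_le_one_right' h5
      · have hx' := not_le.1 hx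
        have hx0 : 0 < v x := zero_lt_one.trans hx'
        rw [num_big hU hA hB hx', y_big hU hA hB hx' he, mul_one, div_mul_eq_mul_div,
          one_le_div₀ (zero_lt_iff.2 (mul_ne_zero (pow_ne_zero _ hg.ne') (pow_ne_zero _ hx0.ne'))),
          mul_comm (v x ^ 4)]
        exact mul_le_mul_right (pow_le_pow_right₀ hx'.le (by norm_num)) _

lemma Far.big (hU : Un v) {W : WeierstrassCurve F} {k : ℕ} (hk : 1 ≤ k) {x : F}
    (h : 1 ≤ v x * v 2 ^ (2 * k)) : 1 < v x := by
  by_contra hcon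
  have h1 : v x * v 2 ^ (2 * k) < 1 := by
    refine lt_of_le_of_lt (mul_le_of_le_one_left' (not_lt.1 hcon)) ?_
    exact pow_lt_one₀ zero_le' hU.lt (by omega)
  exact absurd h (not_le.2 h1)

/-- doubling in the kernel of reduction -/
lemma far_succ (hU : Un v) {W : WeierstrassCurve F} {A B : F} (hW : W = ⟨0, 0, 0, A, B⟩)
    (hc : Cong v A B) {k : ℕ} (hk : 1 ≤ k) {P : W.toAffine.Point} (hP : Far v k P) :
    Far v (k + 1) (P + P) := by
  rcases hP with rfl | ⟨x, y, h, rfl, h0⟩
  · left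
    exact add_zero (0 : W.toAffine.Point)
  · obtain ⟨he, h1 | ⟨hy, Y, h', h1⟩⟩ := dbl hW hU.ne h
    · exact Or.inl h1
    · refine Or.inr ⟨_, Y, h', h1, ?_⟩
      obtain ⟨hA, hB⟩ := hc.int hU
      have hg := hU.pos
      have e4 : v (4 : F) = v 2 ^ 2 := by
        rw [← map_pow]
        norm_num
      have hx' := Far.big (W := W) hU hk h0
      have hx0 : 0 < v x := zero_lt_one.trans hx'
      rw [map_div₀, map_mul, map_pow, e4, num_big hU hA hB hx', y_big hU hA hB hx' he]
      have e5 : v x ^ 4 / (v 2 ^ 2 * v x ^ 3) * v 2 ^ (2 * (k + 1)) = v x * v 2 ^ (2 * k) := by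
        have e6 : v 2 ^ (2 * (k + 1)) = v 2 ^ 2 * v 2 ^ (2 * k) := by rw [← pow_add]; congr 1; ring
        rw [e6]
        field_simp
      rw [e5]
      exact h0

/-- **the points divisible by `2 ^ (k + 1)`** -/
theorem far_pow (hU : Un v) {W : WeierstrassCurve F} {A B : F} (hW : W = ⟨0, 0, 0, A, B⟩)
    (hc : Cong v A B) (k : ℕ) (P : W.toAffine.Point) : Far v (k + 1) (2 ^ (k + 1) • P) := by
  induction k with
  | zero =>
    have : 2 ^ (0 + 1) • P = P + P := by rw [zero_add, pow_one, two_nsmul]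
    rw [this]
    exact far_one hU hW hc P
  | succ k ih =>
    have : 2 ^ (k + 1 + 1) • P = 2 ^ (k + 1) • P + 2 ^ (k + 1) • P := by
      rw [pow_succ, mul_nsmul', two_nsmul, smul_add]
    rw [this]
    exact far_succ hU hW hc (by omega) ih

end

end Pool.Agent.U188.PP
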