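import Pool.Agent.N922.PQ.Final2
import Pool.Agent.N922.PQ.Unr

/-!
# A positive proportion of all elliptic curves has trivial 2-Selmer group over `M` and is of type II
# at the primes over `2`

This is the theorem `Pool.Agent.N922.PQ.finalV` (project PV of helper922); its proof gives curves
`y² = x³ + A x + B` with `A` odd and `A = B` modulo `4`, which is recorded here. The proof of `mainO`
repeats the proof of `Pool.Agent.N922.PQ.mainV`.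
-/

set_option autoImplicit false
set_option linter.all false

open Polynomial IsDedekindDomain WeierstrassCurve WeierstrassCurve.Affine NumberField
open Pool.Agent.TH115.GD
open scoped Classical IntermediateField

namespace Pool.Agent.U188.PP

open Pool.Agent.N922.PQ
open Pool.Agent.N874.PP (Tup chA chB gq tau Two Ev Sq1 U0 sW IsBeta Rt)
open Pool.Agent.N874.PM (PLoc Lies SelR ShaR)

/-- `A` is odd, `A = B` modulo `4`, and the 2-Selmer group over `M` is zero. -/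
def GoodO {M : Type} [Field M] (R : Type) [CommRing R]
    [IsDedekindDomain R] [Algebra R M] [IsFractionRing R M] (p : ℤ × ℤ) : Prop :=
  Odd p.1 ∧ (4 : ℤ) ∣ p.1 - p.2 ∧ SelR R (sW (p.1 : M) (p.2 : M))

/-- The main theorem from the parts (after `Pool.Agent.N922.PQ.mainV`). -/
theorem mainO (H : Parts2) (hLB : S_LB) (hFAM : S_FAM2) (hBAD : S_BAD)
    (hTCH : S_TCH) (hGEN : S_GEN) (hSPL : S_SPL) (hCRV : S_CRV)
    (M : Type) [Field M] [NumberField M]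
    [IsGalois ℚ M] (R : Type) [CommRing R] [IsDedekindDomain R] [Algebra R M]
    [IsFractionRing R M] [IsIntegralClosure R ℤ M] {n : ℕ}
    (hM : Module.finrank ℚ M = 2 ^ n)
    (hur : ∀ w : HeightOneSpectrum R, Ov 2 w → w.valuation M 2 = WithZero.exp (-1 : ℤ)) :
    ∃ (P X₀ : ℕ) (c : ℝ), 0 < c ∧ 1 ≤ P ∧ ∀ X : ℕ, X₀ ≤ X → ∀ H : ℕ, 27 * (X * P) ^ 6 ≤ H →
      c * (X : ℝ) ^ 5 ≤ ({p : ℤ × ℤ | Crv H p.1 p.2 ∧ GoodO (M := M) R p}.ncard : ℝ) := by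
  haveI : Algebra.IsIntegral ℤ R := IsIntegralClosure.isIntegral_algebra ℤ M
  haveI : CharZero R := charZero_of R M
  obtain ⟨κ, hLB'⟩ := hLB
  obtain ⟨γ, g, δ, hG, hdeg⟩ := hGEN M
  -- the prime divisors of `δ`
  obtain ⟨T₀, hT₀, hδ₀⟩ : ∃ T : Finset ℤ, (∀ P ∈ T, IsPr P) ∧
      ∀ P : ℤ, IsPr P → P ∣ δ → P ∈ T := by
    have hf : {P : ℤ | IsPr P ∧ P ∣ δ}.Finite := by
      refine (Set.finite_Icc (-|δ|) |δ|).subset ?_
      rintro P ⟨-, h⟩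
      have h3 : |P| ≤ |δ| := Int.le_of_dvd (abs_pos.2 hG.ne) ((abs_dvd_abs P δ).2 h)
      exact abs_le.1 h3
    refine ⟨hf.toFinset, fun P hP => ?_, fun P h1 h2 => ?_⟩
    · exact (hf.mem_toFinset.1 hP).1
    · exact hf.mem_toFinset.2 ⟨h1, h2⟩
  obtain ⟨T, A, B, hTT, hT⟩ := hTCH T₀ hT₀
  have hδ : ∀ P : ℤ, IsPr P → P ∣ δ → P ∈ T := fun P h1 h2 => hTT (hδ₀ P h1 h2)
  obtain ⟨S, s, c, hS, hdis, hsp, hc, X₀, hX₀⟩ := good_card2 hFAM hBAD κ hT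
    (fun Q => SplitMod Q g) (hSPL M γ g δ hG hdeg T)
  have hSpos : 0 < ∏ Q ∈ S, Q := Finset.prod_pos fun Q hQ => (hS Q hQ).1.1
  refine ⟨(∏ Q ∈ S, Q).toNat, X₀, c / 2 ^ S.card,
    by positivity, by omega, fun X hX Hh hHh => ?_⟩
  have hN := hX₀ X hX
  set Hs := {p : ℤ × ℤ | Crv Hh p.1 p.2 ∧ GoodO (M := M) R p} with hH
  set G := {p : ℤ × ℤ | (Fam X S s T A B p.1 p.2 ∧ (4 : ℤ) ∣ p.1 - p.2) ∧
    ¬ LBad κ X S s p.1 p.2} with hG'
  have hHf : Hs.Finite := (crv_fin Hh).subset fun p hp => hp.1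
  have hbd : 27 * ((X : ℤ) * ∏ Q ∈ S, Q) ^ 6 ≤ Hh := by
    have h1 : ((27 * (X * (∏ Q ∈ S, Q).toNat) ^ 6 : ℕ) : ℤ) ≤ Hh := by exact_mod_cast hHh
    have e1 : (((∏ Q ∈ S, Q).toNat : ℕ) : ℤ) = ∏ Q ∈ S, Q := Int.toNat_of_nonneg hSpos.le
    rw [Nat.cast_mul, Nat.cast_pow, Nat.cast_mul, e1] at h1
    exact_mod_cast h1
  have hcard := card_fib hHf S
    (fun (J : Finset ℤ) (p : ℤ × ℤ) => (p.1 * (∏ Q ∈ J, Q) ^ 2, p.2 * (∏ Q ∈ J, Q) ^ 3)) (G := G) (by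
      rintro p ⟨⟨hpF, hp4⟩, hnb⟩
      obtain ⟨J, hJ, hsel⟩ := selR2 H hLB' M R hM hur hS hpF hp4 hnb hT hG hsp hδ hdis
      refine ⟨J, hJ, ?_⟩
      have hcrv := hCRV X Hh S T s A B p.1 p.2 hS hT hpF J hJ hbd
      have hD8 : (∏ Q ∈ J, Q) % 8 = 1 := prod_mod8 fun Q hQ => (hS Q (hJ hQ)).2.1
      obtain ⟨ha, hb⟩ := odd_of (fam_nt hT hpF hT.1)
      have hAodd : Odd (p.1 * (∏ Q ∈ J, Q) ^ 2) := by
        refine ha.mul (Odd.pow ?_)
        rw [Int.odd_iff]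
        omega
      have h4 : (4 : ℤ) ∣ p.1 * (∏ Q ∈ J, Q) ^ 2 - p.2 * (∏ Q ∈ J, Q) ^ 3 := by
        obtain ⟨k, hk⟩ : ∃ k, (∏ Q ∈ J, Q) = 8 * k + 1 := ⟨(∏ Q ∈ J, Q) / 8, by omega⟩
        obtain ⟨l, hl⟩ := hp4
        have e : p.1 = p.2 + 4 * l := by linarith
        rw [hk, e]
        exact ⟨l * (8 * k + 1) ^ 2 - 2 * k * p.2 * (8 * k + 1) ^ 2, by ring⟩
      exact ⟨hcrv, hAodd, h4, hsel⟩) (by
      intro J hJ x hx y hy hxy
      have hD0 : (∏ Q ∈ J, Q) ≠ 0 := by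
        rw [Finset.prod_ne_zero_iff]
        exact fun Q hQ => (hS Q (hJ hQ)).1.2.ne_zero
      rw [Prod.mk.injEq] at hxy
      exact twist_inj hD0 hxy.1 hxy.2)
  have hcard' : (G.ncard : ℝ) ≤ 2 ^ S.card * Hs.ncard := by exact_mod_cast hcard
  calc c / 2 ^ S.card * (X : ℝ) ^ 5
      = c * (X : ℝ) ^ 5 / 2 ^ S.card := by ring
    _ ≤ (G.ncard : ℝ) / 2 ^ S.card := by gcongr
    _ ≤ (2 ^ S.card * Hs.ncard) / 2 ^ S.card := by gcongr
    _ = Hs.ncard := by field_simp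

/-- A positive proportion. -/
theorem finalO (M : Type) [Field M] [NumberField M]
    [IsGalois ℚ M] (R : Type) [CommRing R] [IsDedekindDomain R] [Algebra R M]
    [IsFractionRing R M] [IsIntegralClosure R ℤ M] {n : ℕ}
    (hM : Module.finrank ℚ M = 2 ^ n)
    (hur : ∀ w : HeightOneSpectrum R, Ov 2 w → w.valuation M 2 = WithZero.exp (-1 : ℤ)) :
    ∃ c : ℝ, 0 < c ∧ ∃ H₀ : ℕ, ∀ H ≥ H₀, {p : ℤ × ℤ | Crv H p.1 p.2}.Finite ∧
    c * ({p : ℤ × ℤ | Crv H p.1 p.2}.ncard : ℝ) ≤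
      ({p : ℤ × ℤ | Crv H p.1 p.2 ∧ GoodO (M := M) R p}.ncard : ℝ) := by
  obtain ⟨P, X₀, c, hc, hP, h⟩ := mainO parts2 lb Pool.Agent.N615.PV.fam2 bad
    Pool.Agent.N954.PQ.tch Pool.Agent.N40.PQ.gen Pool.Agent.N40.PQ.spl
    Pool.Agent.N707.PQ.crv M R hM hur
  exact Pool.Agent.N607.PQ.cnt (fun p => GoodO (M := M) R p) P X₀ c hc hP
    fun X hX Hh hHh => h X hX Hh hHh

/-- Consequences of the triviality of the 2-Selmer group: no points, and no elements of 2-power order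
in the Tate-Shafarevich group. -/
theorem conseq (M : Type) [Field M] [NumberField M] (R : Type) [CommRing R] [IsDedekindDomain R]
    [Algebra R M] [IsFractionRing R M] (w : HeightOneSpectrum R)
    (hw : w.valuation M 2 = WithZero.exp (-1 : ℤ)) {A B : ℤ} (hd : 4 * A ^ 3 + 27 * B ^ 2 ≠ 0)
    (hA : Odd A) (hB : (4 : ℤ) ∣ A - B) (hS : SelR R (sW (A : M) (B : M))) :
    Subsingleton (Pt (sW (A : M) (B : M)) M) ∧ ShaR R (sW (A : M) (B : M)) := by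
  have h6M : (6 : M) ≠ 0 := by norm_num
  have hdM : 4 * (A : M) ^ 3 + 27 * (B : M) ^ 2 ≠ 0 := by exact_mod_cast hd
  obtain ⟨h2, h3⟩ := N650.PM.gfr M R _ _ h6M hdM hS
  have hfin := Pool.Agent.N273.PQ.finm M _ _ hdM h2
  exact ⟨Pool.Agent.N137.PV.tor M R w hw _ _ hA hB hfin (by
    haveI := hfin
    exact odd_card (G := Pt (sW (A : M) (B : M)) M) h2), h3⟩

end Pool.Agent.U188.PP
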