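import Pool.Agent.TH115.GD.Defs

/-!
# The points of `y² = x³ + A x + B` over a field unramified over `ℚ_2`

`A = 1` modulo `2` and `A = B` modulo `4`; then the double of every point lies in the kernel of
reduction, and the points divisible by high powers of two are close to the point at infinity.
-/

set_option autoImplicit false
set_option linter.all false

open WeierstrassCurve WeierstrassCurve.Affine

namespace Pool.Agent.U188.PP

open scoped Classical

section

variable {F Γ : Type} [Field F] [LinearOrderedCommGroupWithZero Γ] {v : Valuation F Γ}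

/-- `2` generates the maximal ideal of the valuation ring. -/
structure Un (v : Valuation F Γ) : Prop where
  ne : (2 : F) ≠ 0
  lt : v 2 < 1
  unif : ∀ x : F, v x < 1 → v x ≤ v 2

lemma Un.pos (h : Un v) : 0 < v 2 := zero_lt_iff.2 ((Valuation.ne_zero_iff v).2 h.ne)

/-- the quotient by two is integral -/
lemma Un.half (h : Un v) {x : F} (hx : v x < 1) : ∃ u : F, x = 2 * u ∧ v u ≤ 1 := by
  refine ⟨x / 2, by field_simp [h.ne], ?_⟩
  rw [map_div₀]
  have h1 := h.unif x hx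
  exact div_le_one_of_le₀ h1 zero_le

lemma v_add_lt {x y : F} {g : Γ} (hx : v x < g) (hy : v y < g) : v (x + y) < g :=
  Valuation.map_add_lt v hx hy

lemma v_add_le {x y : F} {g : Γ} (hx : v x ≤ g) (hy : v y ≤ g) : v (x + y) ≤ g :=
  Valuation.map_add_le v hx hy

lemma v_mul_le {x y : F} (hx : v x ≤ 1) (hy : v y ≤ 1) : v (x * y) ≤ 1 := by
  rw [map_mul]
  exact mul_le_one' hx hy

lemma v_mul_lt {x y : F} (hx : v x < 1) (hy : v y ≤ 1) : v (x * y) < 1 := by
  rw [map_mul]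
  exact mul_lt_one_of_lt_of_le hx hy

lemma v_nat (n : ℕ) : v (n : F) ≤ 1 := by
  induction n with
  | zero => simp
  | succ n ih =>
    push_cast
    exact v_add_le ih (le_of_eq (map_one v))

lemma v_ofNat (n : ℕ) [n.AtLeastTwo] : v (OfNat.ofNat n : F) ≤ 1 := by
  have := v_nat (v := v) n
  exact_mod_cast this

lemma v_pow_le {x : F} (hx : v x ≤ 1) (n : ℕ) : v (x ^ n) ≤ 1 := by
  rw [map_pow]
  exact pow_le_one' hx n

lemma v_sub_le {x y : F} {g : Γ} (hx : v x ≤ g) (hy : v y ≤ g) : v (x - y) ≤ g := by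
  rw [sub_eq_add_neg]
  exact v_add_le hx (by rwa [Valuation.map_neg])

/-- no point reduces to the singular point -/
lemma not_sing (h : Un v) {a b x y u : F} (ha : v a ≤ 1) (hb : v b ≤ 1) (hu : v u ≤ 1)
    (hx : x = 1 + 2 * u)
    (he : y ^ 2 = x ^ 3 + (1 + 2 * a) * x + (1 + 2 * a - 4 * b)) : False := by
  have e1 : y ^ 2 - 1 = 2 * (1 + 2 * (a - b + 2 * u + u * a + 3 * u ^ 2 + 2 * u ^ 3)) := by
    rw [he, hx]
    ring
  have h1 : v (1 + 2 * (a - b + 2 * u + u * a + 3 * u ^ 2 + 2 * u ^ 3)) ≤ 1 := by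
    have h2 : v (a - b + 2 * u + u * a + 3 * u ^ 2 + 2 * u ^ 3) ≤ 1 :=
      v_add_le (v_add_le (v_add_le (v_add_le (v_sub_le ha hb) (v_mul_le h.lt.le hu))
        (v_mul_le hu ha)) (v_mul_le (v_ofNat 3) (v_pow_le hu 2))) (v_mul_le h.lt.le (v_pow_le hu 3))
    exact v_add_le (le_of_eq (map_one v)) (v_mul_le h.lt.le h2)
  have h3 : v (y ^ 2 - 1) < 1 := by
    rw [e1]
    exact v_mul_lt h.lt h1
  have hy : v y ≤ 1 := by
    have h4 : v (y ^ 2) ≤ 1 := by
      have : y ^ 2 = (y ^ 2 - 1) + 1 := by ring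
      rw [this]
      exact v_add_le h3.le (le_of_eq (map_one v))
    rw [map_pow] at h4
    exact (pow_le_one_iff (by norm_num)).1 h4
  have h5 : v (y - 1) < 1 := by
    have e2 : (y - 1) ^ 2 = (y ^ 2 - 1) + 2 * (1 - y) := by ring
    have h6 : v ((y - 1) ^ 2) < 1 := by
      rw [e2]
      exact v_add_lt h3 (v_mul_lt h.lt (v_sub_le (le_of_eq (map_one v)) hy))
    rw [map_pow] at h6
    by_contra hcon
    exact absurd h6 (not_lt.2 (one_le_pow_of_one_le' (not_lt.1 hcon) 2))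
  obtain ⟨w, hw, hw1⟩ := h.half h5
  have e3 : (2 : F) * 2 * (w + w ^ 2) =
      2 * (1 + 2 * (a - b + 2 * u + u * a + 3 * u ^ 2 + 2 * u ^ 3)) := by
    rw [← e1]
    have : y = 1 + 2 * w := by rw [← hw]; ring
    rw [this]
    ring
  have e4 : (1 : F) = 2 * ((w + w ^ 2) - (a - b + 2 * u + u * a + 3 * u ^ 2 + 2 * u ^ 3)) := by
    have := mul_left_cancel₀ h.ne (by rw [← e3]; ring :
      (2 : F) * (1 + 2 * (a - b + 2 * u + u * a + 3 * u ^ 2 + 2 * u ^ 3)) = 2 * (2 * (w + w ^ 2)))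
    linear_combination this
  have h7 : v (1 : F) < 1 := by
    rw [e4]
    refine v_mul_lt h.lt (v_sub_le (v_add_le hw1 (v_pow_le hw1 2)) ?_)
    exact v_add_le (v_add_le (v_add_le (v_add_le (v_sub_le ha hb) (v_mul_le h.lt.le hu))
        (v_mul_le hu ha)) (v_mul_le (v_ofNat 3) (v_pow_le hu 2))) (v_mul_le h.lt.le (v_pow_le hu 3))
  rw [map_one] at h7
  exact lt_irrefl _ h7

/-- the numerator of the doubling formula is a unit at integral points -/
lemma num_unit (h : Un v) {a b x y : F} (ha : v a ≤ 1) (hb : v b ≤ 1) (hx : v x ≤ 1)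
    (he : y ^ 2 = x ^ 3 + (1 + 2 * a) * x + (1 + 2 * a - 4 * b)) :
    v (x ^ 4 - 2 * (1 + 2 * a) * x ^ 2 - 8 * (1 + 2 * a - 4 * b) * x + (1 + 2 * a) ^ 2) = 1 := by
  have h1 : v (x - 1) = 1 := by
    refine le_antisymm (v_sub_le hx (le_of_eq (map_one v))) ?_
    by_contra hcon
    obtain ⟨u, hu, hu1⟩ := h.half (not_le.1 hcon)
    exact not_sing h ha hb hu1 (by rw [← hu]; ring) he
  have e1 : x ^ 4 - 2 * (1 + 2 * a) * x ^ 2 - 8 * (1 + 2 * a - 4 * b) * x + (1 + 2 * a) ^ 2 =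
      (x - 1) ^ 4 + 2 * (2 * x ^ 3 - 3 * x ^ 2 + 2 * x - (1 + 2 * a) * x ^ 2 -
        4 * (1 + 2 * a - 4 * b) * x + 2 * a + 2 * a ^ 2) := by ring
  have ho : v (1 : F) ≤ 1 := le_of_eq (map_one v)
  have h2a : v (1 + 2 * a) ≤ 1 := v_add_le ho (v_mul_le h.lt.le ha)
  have h4 : v (4 : F) ≤ 1 := v_ofNat 4
  have h2 : v (2 * x ^ 3 - 3 * x ^ 2 + 2 * x - (1 + 2 * a) * x ^ 2 -
        4 * (1 + 2 * a - 4 * b) * x + 2 * a + 2 * a ^ 2) ≤ 1 :=
    v_add_le (v_add_le (v_sub_le (v_sub_le (v_add_le (v_sub_le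
      (v_mul_le h.lt.le (v_pow_le hx 3)) (v_mul_le (v_ofNat 3) (v_pow_le hx 2)))
      (v_mul_le h.lt.le hx)) (v_mul_le h2a (v_pow_le hx 2)))
      (v_mul_le (v_mul_le h4 (v_sub_le h2a (v_mul_le h4 hb))) hx)) (v_mul_le h.lt.le ha))
      (v_mul_le h.lt.le (v_pow_le ha 2))
  rw [e1]
  have h3 : v ((x - 1) ^ 4) = 1 := by rw [map_pow, h1, one_pow]
  rw [Valuation.map_add_eq_of_lt_left v (by
    rw [h3]
    exact v_mul_lt h.lt h2), h3]

/-- the numerator of the doubling formula at a point which is not integral -/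
lemma num_big (h : Un v) {A B x : F} (hA : v A ≤ 1) (hB : v B ≤ 1) (hx : 1 < v x) :
    v (x ^ 4 - 2 * A * x ^ 2 - 8 * B * x + A ^ 2) = v x ^ 4 := by
  have e1 : x ^ 4 - 2 * A * x ^ 2 - 8 * B * x + A ^ 2 =
      x ^ 4 + (-(2 * A) * x ^ 2 + -(8 * B) * x + A ^ 2) := by ring
  have h0 : (0 : Γ) < v x := zero_lt_one.trans hx
  have h2 : v x ≤ v x ^ 2 := by
    rw [pow_two]
    exact le_mul_of_one_le_left' hx.le
  have h3 : v (-(2 * A) * x ^ 2 + -(8 * B) * x + A ^ 2) ≤ v x ^ 2 := by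
    refine v_add_le (v_add_le ?_ ?_) ?_
    · rw [map_mul, Valuation.map_neg, map_pow]
      exact mul_le_of_le_one_left' (v_mul_le h.lt.le hA)
    · rw [map_mul, Valuation.map_neg]
      exact (mul_le_of_le_one_left' (v_mul_le (v_ofNat 8) hB)).trans h2
    · exact (v_pow_le hA 2).trans (one_le_pow_of_one_le' hx.le 2)
  have h4 : v x ^ 2 < v x ^ 4 := pow_lt_pow_right₀ hx (by norm_num)
  rw [e1, Valuation.map_add_eq_of_lt_left v (by
    rw [map_pow]
    exact h3.trans_lt h4), map_pow]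

/-- the square of the second coordinate of a point which is not integral -/
lemma y_big (h : Un v) {A B x y : F} (hA : v A ≤ 1) (hB : v B ≤ 1) (hx : 1 < v x)
    (he : y ^ 2 = x ^ 3 + A * x + B) : v y ^ 2 = v x ^ 3 := by
  have h0 : (0 : Γ) < v x := zero_lt_one.trans hx
  have h3 : v (A * x + B) ≤ v x := by
    refine v_add_le ?_ (hB.trans hx.le)
    rw [map_mul]
    exact mul_le_of_le_one_left' hA
  have h4 : v x < v x ^ 3 := by
    nth_rewrite 1 [← pow_one (v x)]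
    exact pow_lt_pow_right₀ hx (by norm_num)
  rw [← map_pow, he, add_assoc, Valuation.map_add_eq_of_lt_left v (by
    rw [map_pow]
    exact h3.trans_lt h4), map_pow]

end

end Pool.Agent.U188.PP
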